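import Pool.Agent.Q71.NC.Top5
import Pool.Agent.Q71.NC.Conn

/-!
# Torsion-free nilpotent quasi-Kähler groups of arbitrary nilpotency class

For every `c` there is a complex polynomial `h` in `n` variables whose non-vanishing locus
`{x ∈ ℂⁿ : h(x) ≠ 0}` (a connected smooth affine variety, the complement of a hypersurface in
projective space) has a torsion-free nilpotent fundamental group of nilpotency class exactly `c`.
-/

namespace Pool.Agent.Results.MP_9c903d_ag.TorsionFreeClass

open Pool.Agent.Q71.NC

theorem result : ∀ c : ℕ, ∃ (n : ℕ) (h : MvPolynomial (Fin n) ℂ)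
    (x₀ : {x : Fin n → ℂ // MvPolynomial.eval x h ≠ 0}),
    PathConnectedSpace {x : Fin n → ℂ // MvPolynomial.eval x h ≠ 0} ∧
    (∀ g : FundamentalGroup {x : Fin n → ℂ // MvPolynomial.eval x h ≠ 0} x₀,
      ∀ k : ℕ, k ≠ 0 → g ^ k = 1 → g = 1) ∧
    Group.IsNilpotent (FundamentalGroup {x : Fin n → ℂ // MvPolynomial.eval x h ≠ 0} x₀) ∧
    Group.nilpotencyClass
      (FundamentalGroup {x : Fin n → ℂ // MvPolynomial.eval x h ≠ 0} x₀) = c := by
  intro c
  rcases Nat.eq_zero_or_pos c with rfl | hc
  · refine ⟨0, 1, ⟨0, by simp⟩, pathConnected_compl _ ⟨0, by simp⟩, ?_⟩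
    have hsub : Subsingleton (FundamentalGroup
        {x : Fin 0 → ℂ // MvPolynomial.eval x (1 : MvPolynomial (Fin 0) ℂ) ≠ 0}
        ⟨0, by simp⟩) := by
      constructor
      intro α β
      obtain ⟨p, hp⟩ := Path.Homotopic.Quotient.mk_surjective (FundamentalGroup.toPath α)
      obtain ⟨q, hq⟩ := Path.Homotopic.Quotient.mk_surjective (FundamentalGroup.toPath β)
      have hpq : p = q := by
        ext t i
        exact i.elim0
      have : FundamentalGroup.toPath α = FundamentalGroup.toPath β := by
        rw [← hp, ← hq, hpq]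
      exact this
    refine ⟨fun g _ _ _ => Subsingleton.elim _ _, inferInstance, ?_⟩
    rw [Group.nilpotencyClass_zero_iff_subsingleton]
    exact hsub
  · exact ⟨c + 1, hP c, x₀ c, pathConnected_compl _ (x₀ c),
      fun g k hk hg => presXX.torsionFree hk hg, presXX.isNilpotent hc,
      presXX.nilpotencyClass_eq hc⟩

end Pool.Agent.Results.MP_9c903d_ag.TorsionFreeClass
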